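import Pool.Agent.X248.Stars.Inf
import Pool.Agent.X248.Stars.Arith

/-!
# Equitably 2-choosable disjoint unions of `n` stars (MP_0c0609_co, Q1)

Complete answer: for `n ≥ 2` there are only finitely many equitably 2-choosable disjoint unions of
`n` stars if and only if `n ≤ 4`.
-/

namespace Pool.Agent.Results.MP_0c0609_co.StarUnions

open Pool.Agent.X248.Stars

/-- the sizes `1, …, 1, 2t+1, 2t+1, 2t+1, 3t+1, 3t+1` of `n` stars -/
def sizes (n t : ℕ) : Fin n → ℕ := fun i =>
  if n - 1 - (i : ℕ) < 2 then 3 * t + 1 else if n - 1 - (i : ℕ) < 5 then 2 * t + 1 else 1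

theorem sizes_eq (n t : ℕ) : sizes n t = mm n t := by
  funext i
  unfold sizes mm KK
  split_ifs <;> simp

theorem sizes_mono (n t : ℕ) : Monotone (sizes n t) := by
  intro i j hij
  have h : (i : ℕ) ≤ j := hij
  unfold sizes
  split_ifs <;> omega

theorem sizes_pos (n t : ℕ) (i : Fin n) : 1 ≤ sizes n t i := by
  unfold sizes
  split_ifs <;> omega

theorem finite_of_bound {n : ℕ} {S : Set (Fin n → ℕ)} (B : ℕ) (h : ∀ m ∈ S, ∀ i, m i ≤ B) :
    S.Finite := by
  refine (Set.finite_Icc (0 : Fin n → ℕ) (fun _ => B)).subset ?_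
  intro m hm
  exact ⟨fun i => Nat.zero_le _, h m hm⟩

/-- The isomorphism types of disjoint unions of `n` stars with at least one edge each are the
monotone functions `m : Fin n → ℕ` with values at least `1`. -/
theorem result :
    (∀ n : ℕ, 2 ≤ n →
      ({m : Fin n → ℕ | Monotone m ∧ (∀ i, 1 ≤ m i) ∧
        EquitablyChoosable (starUnion m) 2}.Finite ↔ n ≤ 4)) ∧
    (∀ n t : ℕ, 5 ≤ n → EquitablyChoosable (starUnion (sizes n t)) 2) := by
  have h5 : ∀ n t : ℕ, 5 ≤ n → EquitablyChoosable (starUnion (sizes n t)) 2 := by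
    intro n t hn
    rw [sizes_eq]
    exact choosable n t hn
  refine ⟨fun n hn => ⟨fun hfin => ?_, fun h4 => ?_⟩, h5⟩
  · by_contra hlt
    push Not at hlt
    refine Set.infinite_of_injective_forall_mem (f := fun t : ℕ => sizes n t) ?_ ?_ hfin
    · intro t t' h
      have h1 := congrFun h ⟨n - 1, by omega⟩
      simp only [sizes] at h1
      rw [if_pos (by omega), if_pos (by omega)] at h1
      omega
    · intro t
      exact ⟨sizes_mono n t, sizes_pos n t, h5 n t hlt⟩
  · refine finite_of_bound 1000 ?_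
    rintro m ⟨hmono, _, hch⟩ i
    have hI : Ineq m := ineq hch
    have hn' : n = 2 ∨ n = 3 ∨ n = 4 := by omega
    rcases hn' with rfl | rfl | rfl
    · exact (hmono (Fin.le_last i)).trans (bound2 hmono hI)
    · exact (hmono (Fin.le_last i)).trans (bound3 hmono hI)
    · exact (hmono (Fin.le_last i)).trans (bound4 hmono hI)

end Pool.Agent.Results.MP_0c0609_co.StarUnions
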